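import Pool.Agent.V8H18.MD.Coset
import Pool.Agent.V8H88.GO.Any

/-!
# Connected monodromy
-/

set_option autoImplicit false

namespace Pool.Agent.V8H18.MD

open Topology MeasureTheory Pool.Agent.V8H88.GO

variable {k Γ : Type} [Field k] [Group Γ] [TopologicalSpace Γ]
variable {n m : Type} [Fintype n] [DecidableEq n] [Fintype m] [DecidableEq m]

/-- The Zariski closure of the image of `Δ` under `V ⊕ W` is contained in the identity component of the
Zariski closure of the image of the whole group: each polynomial in the matrix entries of `V`, `W` and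
of their inverses which vanishes on some open subgroup vanishes on `Δ`. -/
def ConnectedOn (V : Γ →* Matrix n n k) (W : Γ →* Matrix m m k) (Δ : Subgroup Γ) : Prop :=
  ∀ b ∈ RB V W, (∃ U : Subgroup Γ, IsOpen (U : Set Γ) ∧ ∀ u ∈ U, b u = 0) → ∀ g ∈ Δ, b g = 0

omit [TopologicalSpace Γ] in
theorem noeth (V : Γ →* Matrix n n k) (W : Γ →* Matrix m m k) : IsNoetherianRing (RB V W) := by
  have h1 : Algebra.FiniteType k (RB V W) := (Subalgebra.fg_iff_finiteType _).mp (hopfB V W).fg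
  exact Algebra.FiniteType.isNoetherianRing k _

/-- **Positive measure is enough.** -/
theorem vanish [TopologicalSpace k] [IsTopologicalRing k] [T2Space k] [IsTopologicalGroup Γ]
    [CompactSpace Γ] [MeasurableSpace Γ] [BorelSpace Γ]
    (V : Γ →* Matrix n n k) (W : Γ →* Matrix m m k) (hV : Continuous V) (hW : Continuous W)
    (hbasis : ∀ W ∈ 𝓝 (1 : Γ), ∃ U : Subgroup Γ, U.Normal ∧ IsOpen (U : Set Γ) ∧ (U : Set Γ) ⊆ W)
    (μ : Measure Γ) [μ.IsHaarMeasure] [μ.InnerRegularCompactLTTop]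
    (Δ : Subgroup Γ) (hΔ : IsOpen (Δ : Set Γ)) (hconn : ConnectedOn V W Δ)
    (C : Set Γ) (hC : C ⊆ Δ) (hμ : μ C ≠ 0) (b : Γ → k) (hb : b ∈ RB V W)
    (h0 : ∀ g ∈ C, b g = 0) : ∀ g ∈ Δ, b g = 0 := by
  have hN := noeth V W
  obtain ⟨U, -, hU, z, hz, h⟩ := exists_coset (R := RB V W) (fun b hb => RB_cont V W hV hW b hb)
    (fun x b hb => (hopfB V W).tr_mem x hb) hbasis μ Δ hΔ C hC hμ
  intro g hg
  have h1 := hconn (tr z b) ((hopfB V W).tr_mem z hb) ⟨U, hU, fun u hu => h b hb h0 u hu⟩ (z⁻¹ * g)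
    (Δ.mul_mem (Δ.inv_mem hz) hg)
  simpa [tr] using h1

/-- **Existence.** -/
theorem exists_connectedOn
    (hbasis : ∀ W ∈ 𝓝 (1 : Γ), ∃ U : Subgroup Γ, U.Normal ∧ IsOpen (U : Set Γ) ∧ (U : Set Γ) ⊆ W)
    (V : Γ →* Matrix n n k) (W : Γ →* Matrix m m k) :
    ∃ Δ : Subgroup Γ, Δ.Normal ∧ IsOpen (Δ : Set Γ) ∧ ConnectedOn V W Δ := by
  have hN := noeth V W
  let I : Subgroup Γ → Ideal (RB V W) := fun U =>
    { carrier := {b | ∀ g ∈ U, b.1 g = 0}
      add_mem' := by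
        intro a b ha hb g hg
        change a.1 g + b.1 g = 0
        rw [ha g hg, hb g hg, add_zero]
      zero_mem' := fun g _ => rfl
      smul_mem' := by
        intro c a ha g hg
        change c.1 g * a.1 g = 0
        rw [ha g hg, mul_zero] }
  have hI : ∀ U U' : Subgroup Γ, U ≤ U' → I U' ≤ I U := fun U U' h b hb g hg => hb g (h hg)
  obtain ⟨J, ⟨Δ, hΔn, hΔo, hJ⟩, hmax⟩ := set_has_maximal_iff_noetherian.mpr hN
    {J : Ideal (RB V W) | ∃ U : Subgroup Γ, U.Normal ∧ IsOpen (U : Set Γ) ∧ J = I U}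
    ⟨I ⊤, ⊤, inferInstance, by rw [Subgroup.coe_top]; exact isOpen_univ, rfl⟩
  refine ⟨Δ, hΔn, hΔo, ?_⟩
  rintro b hb ⟨U, hU, hbU⟩ g hg
  obtain ⟨U', hU'n, hU'o, hU'⟩ := hbasis _ (hU.mem_nhds U.one_mem)
  have h1 : J ≤ I (Δ ⊓ U') := by
    rw [hJ]; exact hI _ _ inf_le_left
  have h2 : I (Δ ⊓ U') ∈ {J : Ideal (RB V W) | ∃ U : Subgroup Γ, U.Normal ∧ IsOpen (U : Set Γ) ∧
      J = I U} := ⟨Δ ⊓ U', inferInstance, by rw [Subgroup.coe_inf]; exact hΔo.inter hU'o, rfl⟩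
  have h3 : J = I (Δ ⊓ U') := by
    by_contra hne
    exact hmax _ h2 (lt_of_le_of_ne h1 hne)
  have h4 : (⟨b, hb⟩ : RB V W) ∈ I (Δ ⊓ U') := fun g hg => hbU g (hU' hg.2)
  rw [← h3, hJ] at h4
  exact h4 g hg

end Pool.Agent.V8H18.MD
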