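import Mathlib

/-!
# Zero sets of positive Haar measure contain cosets of open subgroups

Let `Γ` be a compact group whose open normal subgroups are a basis of the neighbourhoods of `1`, and
`R` a Noetherian algebra of continuous functions on `Γ`, closed under left translations. If a subset
of an open subgroup `Δ` of positive Haar measure is cut out by elements of `R` then these elements
vanish on a coset of an open normal subgroup in `Δ`: a minimal set of this kind is equal to its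
translates by the elements near `1`.
-/

set_option autoImplicit false

open MeasureTheory Topology Pointwise

namespace Pool.Agent.V8H18.MD

variable {k Γ : Type} [Field k] [Group Γ]

/-- left translation -/
def lt (x : Γ) (f : Γ → k) : Γ → k := fun y => f (x * y)

variable [TopologicalSpace k] [T2Space k] [TopologicalSpace Γ] [IsTopologicalGroup Γ]
  [CompactSpace Γ] [MeasurableSpace Γ] [BorelSpace Γ]

/-- the zeros in `Δ` of the elements of an ideal -/
def Zer (R : Subalgebra k (Γ → k)) (Δ : Set Γ) (I : Ideal R) : Set Γ :=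
  {g | g ∈ Δ ∧ ∀ b ∈ I, b.1 g = 0}

omit [IsTopologicalGroup Γ] [CompactSpace Γ] [MeasurableSpace Γ] [BorelSpace Γ] in
theorem Zer_closed {R : Subalgebra k (Γ → k)} (hc : ∀ b ∈ R, Continuous b) {Δ : Set Γ}
    (hΔ : IsClosed Δ) (I : Ideal R) : IsClosed (Zer R Δ I) := by
  have : Zer R Δ I = Δ ∩ ⋂ b ∈ I, {g | b.1 g = 0} := by
    ext g
    simp [Zer]
  rw [this]
  apply hΔ.inter
  apply isClosed_biInter
  intro b _
  exact isClosed_eq (hc b.1 b.2) continuous_const

/-- the translate of an ideal -/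
def Itr {R : Subalgebra k (Γ → k)} (htr : ∀ x, ∀ b ∈ R, lt x b ∈ R) (x : Γ) (I : Ideal R) :
    Ideal R where
  carrier := {b | (⟨lt x b.1, htr x b.1 b.2⟩ : R) ∈ I}
  add_mem' := by
    intro a b ha hb
    have h : (⟨lt x (a + b : R).1, htr x _ (a + b : R).2⟩ : R) =
        ⟨lt x a.1, htr x a.1 a.2⟩ + ⟨lt x b.1, htr x b.1 b.2⟩ := rfl
    change (⟨lt x (a + b : R).1, htr x _ (a + b : R).2⟩ : R) ∈ I
    rw [h]
    exact I.add_mem ha hb
  zero_mem' := by
    have h : (⟨lt x (0 : R).1, htr x _ (0 : R).2⟩ : R) = 0 := rfl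
    change (⟨lt x (0 : R).1, htr x _ (0 : R).2⟩ : R) ∈ I
    rw [h]
    exact I.zero_mem
  smul_mem' := by
    intro c a ha
    have h : (⟨lt x (c • a : R).1, htr x _ (c • a : R).2⟩ : R) =
        ⟨lt x c.1, htr x c.1 c.2⟩ * ⟨lt x a.1, htr x a.1 a.2⟩ := rfl
    change (⟨lt x (c • a : R).1, htr x _ (c • a : R).2⟩ : R) ∈ I
    rw [h]
    exact I.mul_mem_left _ ha

/-- **Zero sets of positive measure.** -/
theorem exists_coset {R : Subalgebra k (Γ → k)} [IsNoetherianRing R]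
    (hc : ∀ b ∈ R, Continuous b) (htr : ∀ x, ∀ b ∈ R, lt x b ∈ R)
    (hbasis : ∀ W ∈ 𝓝 (1 : Γ), ∃ U : Subgroup Γ, U.Normal ∧ IsOpen (U : Set Γ) ∧ (U : Set Γ) ⊆ W)
    (μ : Measure Γ) [μ.IsHaarMeasure]
    [μ.InnerRegularCompactLTTop] (Δ : Subgroup Γ) (hΔ : IsOpen (Δ : Set Γ))
    (C : Set Γ) (hC : C ⊆ Δ) (hμ : μ C ≠ 0) :
    ∃ U : Subgroup Γ, U.Normal ∧ IsOpen (U : Set Γ) ∧ ∃ z ∈ Δ, ∀ b ∈ R, (∀ g ∈ C, b g = 0) →
      ∀ u ∈ U, b (z * u) = 0 := by
  have hΔc : IsClosed (Δ : Set Γ) := Subgroup.isClosed_of_isOpen Δ hΔ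
  -- the ideal of `C`
  let I0 : Ideal R :=
    { carrier := {b | ∀ g ∈ C, b.1 g = 0}
      add_mem' := by
        intro a b ha hb g hg
        change a.1 g + b.1 g = 0
        rw [ha g hg, hb g hg, add_zero]
      zero_mem' := fun g _ => rfl
      smul_mem' := by
        intro c a ha g hg
        change c.1 g * a.1 g = 0
        rw [ha g hg, mul_zero] }
  have hI0 : μ (Zer R Δ I0) ≠ 0 := by
    intro h
    apply hμ
    have hsub : C ⊆ Zer R Δ I0 := fun g hg => ⟨hC hg, fun b hb => hb g hg⟩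
    exact measure_mono_null hsub h
  obtain ⟨I, ⟨hI1, hI2⟩, hImax⟩ := set_has_maximal_iff_noetherian.mpr
    (inferInstance : IsNoetherianRing R) {I : Ideal R | I0 ≤ I ∧ μ (Zer R Δ I) ≠ 0}
    ⟨I0, le_rfl, hI0⟩
  set E := Zer R Δ I with hE
  have hEc : IsClosed E := Zer_closed hc hΔc I
  have hEk : IsCompact E := hEc.isCompact
  -- translations near the identity
  have h1 := tendsto_measure_smul_sdiff_isCompact_isClosed (μ := μ) hEk hEc
  have hpos : 0 < μ E := pos_iff_ne_zero.mpr hI2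
  have h2 : ∀ᶠ g in 𝓝 (1 : Γ), μ (g • E \ E) < μ E := h1.eventually (gt_mem_nhds hpos)
  have h3 : (Δ : Set Γ) ∈ 𝓝 (1 : Γ) := hΔ.mem_nhds Δ.one_mem
  obtain ⟨U, hUn, hUo, hU⟩ := hbasis _ (Filter.inter_mem h2 h3)
  refine ⟨U, hUn, hUo, ?_⟩
  have hfin : μ E ≠ ⊤ := (hEk.measure_lt_top).ne
  -- `E ⊆ g E` for the elements of `U`
  have key : ∀ g ∈ U, ∀ y ∈ E, g⁻¹ * y ∈ E := by
    intro g hg y hy
    have hgΔ : g ∈ Δ := (hU hg).2
    have h4 : μ (g • E ∩ E) ≠ 0 := by
      intro h0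
      have h5 : μ (g • E) ≤ μ (g • E ∩ E) + μ (g • E \ E) := measure_le_inter_add_sdiff _ _ _
      rw [h0, zero_add, measure_smul] at h5
      exact absurd (hU hg).1 (not_lt.mpr h5)
    have h6 : Zer R Δ (I ⊔ Itr htr g I) ⊇ g • E ∩ E := by
      rintro w ⟨hw1, hw2⟩
      refine ⟨hw2.1, ?_⟩
      intro b hb
      obtain ⟨b1, hb1, b2, hb2, rfl⟩ := Submodule.mem_sup.mp hb
      have e1 : b1.1 w = 0 := hw2.2 b1 hb1
      obtain ⟨e, he, rfl⟩ := hw1
      have e2 : b2.1 (g • e) = 0 := he.2 _ hb2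
      change b1.1 (g • e) + b2.1 (g • e) = 0
      rw [e1, e2, add_zero]
    have h7 : ¬ (I < I ⊔ Itr htr g I) := by
      apply hImax
      exact ⟨hI1.trans le_sup_left, fun h => h4 (measure_mono_null h6 h)⟩
    have h8 : Itr htr g I ≤ I := by
      by_contra hcon
      refine h7 (lt_of_le_of_ne le_sup_left (fun h => hcon ?_))
      have h' : Itr htr g I ≤ I ⊔ Itr htr g I := le_sup_right
      rw [← h] at h'
      exact h'
    refine ⟨Δ.mul_mem (Δ.inv_mem hgΔ) hy.1, ?_⟩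
    intro b hb
    -- `b` translated by `g⁻¹` is in the translate of `I`
    have h9 : (⟨lt g⁻¹ b.1, htr g⁻¹ b.1 b.2⟩ : R) ∈ Itr htr g I := by
      change (⟨lt g (lt g⁻¹ b.1), _⟩ : R) ∈ I
      have : (⟨lt g (lt g⁻¹ b.1), htr g _ (htr g⁻¹ b.1 b.2)⟩ : R) = b := by
        apply Subtype.ext
        funext y
        simp [lt]
      rw [this]
      exact hb
    exact hy.2 _ (h8 h9)
  obtain ⟨z, hz⟩ : E.Nonempty := nonempty_of_measure_ne_zero hI2
  refine ⟨z, hz.1, ?_⟩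
  intro b hb hbC u hu
  have hmem : (⟨b, hb⟩ : R) ∈ I := hI1 (fun g hg => hbC g hg)
  have h10 : z * u * z⁻¹ ∈ U := hUn.conj_mem u hu z
  have h11 := key (z * u * z⁻¹)⁻¹ (U.inv_mem h10) z hz
  have h12 : (z * u * z⁻¹)⁻¹⁻¹ * z = z * u := by group
  rw [h12] at h11
  exact h11.2 _ hmem

end Pool.Agent.V8H18.MD
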