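import Pool.Agent.V8H88.GO.Dns

/-!
# Sets of primes of positive upper density have Frobenius elements of positive measure
-/

set_option autoImplicit false

open MeasureTheory Topology Pointwise

namespace Pool.Agent.V8H18.MD

open NumberField IsDedekindDomain Filter Pool.Agent.W401.Cheb Pool.Agent.V8H88.GO

section quot

variable {Γ : Type} [Group Γ] [TopologicalSpace Γ] [IsTopologicalGroup Γ]
  [CompactSpace Γ] [MeasurableSpace Γ] [BorelSpace Γ]

theorem measure_coset (μ : Measure Γ) [μ.IsHaarMeasure] (U : Subgroup Γ) (q : Γ ⧸ U) :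
    μ ((QuotientGroup.mk : Γ → Γ ⧸ U) ⁻¹' {q}) = μ (U : Set Γ) := by
  obtain ⟨σ, rfl⟩ := QuotientGroup.mk_surjective q
  have h : (QuotientGroup.mk : Γ → Γ ⧸ U) ⁻¹' {(QuotientGroup.mk σ : Γ ⧸ U)} = σ • (U : Set Γ) := by
    ext τ
    rw [Set.mem_preimage, Set.mem_singleton_iff, Set.mem_smul_set_iff_inv_smul_mem]
    rw [eq_comm, QuotientGroup.eq]
    rfl
  rw [h, measure_smul]

theorem measure_preimage (μ : Measure Γ) [μ.IsHaarMeasure] (U : Subgroup Γ)
    (hU : IsOpen (U : Set Γ)) (A : Set (Γ ⧸ U)) :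
    μ ((QuotientGroup.mk : Γ → Γ ⧸ U) ⁻¹' A) = (A.ncard : ENNReal) * μ (U : Set Γ) := by
  have hfin : Finite (Γ ⧸ U) := Subgroup.quotient_finite_of_isOpen _ hU
  have hA : A.Finite := Set.toFinite A
  have h1 : (QuotientGroup.mk : Γ → Γ ⧸ U) ⁻¹' A =
      ⋃ q ∈ hA.toFinset, (QuotientGroup.mk : Γ → Γ ⧸ U) ⁻¹' {q} := by
    ext σ
    simp
  have hop : ∀ q : Γ ⧸ U, IsOpen ((QuotientGroup.mk : Γ → Γ ⧸ U) ⁻¹' {q}) := by
    intro q
    obtain ⟨σ, rfl⟩ := QuotientGroup.mk_surjective q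
    have h : (QuotientGroup.mk : Γ → Γ ⧸ U) ⁻¹' {(QuotientGroup.mk σ : Γ ⧸ U)} =
        σ • (U : Set Γ) := by
      ext τ
      rw [Set.mem_preimage, Set.mem_singleton_iff, Set.mem_smul_set_iff_inv_smul_mem]
      rw [eq_comm, QuotientGroup.eq]
      rfl
    rw [h]
    exact hU.smul σ
  rw [h1, measure_biUnion_finset]
  · rw [Finset.sum_congr rfl (fun q _ => measure_coset μ U q), Finset.sum_const, nsmul_eq_mul,
      Set.ncard_eq_toFinset_card A hA]
  · intro a _ b _ hab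
    rw [Function.onFun, Set.disjoint_left]
    intro σ h1 h2
    exact hab (h1.symm.trans h2)
  · intro q _
    exact (hop q).measurableSet

end quot

variable (K : Type) [Field K] [NumberField K]

/-- The upper natural density of the set `S` of primes is greater than `a`. -/
def UpperDensityAbove (S : Set (HeightOneSpectrum (𝓞 K))) (a : ℝ) : Prop :=
  ∃ δ : ℝ, a < δ ∧ ∃ᶠ N : ℕ in atTop, δ * (count K Set.univ N : ℝ) ≤ (count K S N : ℝ)

theorem dens_univ : Tendsto (fun N : ℕ => (count K Set.univ N : ℝ) / (Nat.primeCounting N : ℝ))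
    atTop (𝓝 1) := by
  have hn : (⊤ : Subgroup (GK K)).Normal := inferInstance
  have hto : IsOpen ((⊤ : Subgroup (GK K)) : Set (GK K)) := by
    rw [Subgroup.coe_top]; exact isOpen_univ
  have key1 := Pool.Agent.W528.Ord.chebK K ⊤ hto Set.univ
    (fun _ _ _ => Set.mem_univ _) (fun _ _ _ _ => Set.mem_univ _)
  have hfin : Finite (GK K ⧸ (⊤ : Subgroup (GK K))) := Subgroup.quotient_finite_of_isOpen _ hto
  have h6 : 0 < Nat.card (GK K ⧸ (⊤ : Subgroup (GK K))) := Nat.card_pos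
  have hone : (((QuotientGroup.mk : GK K → GK K ⧸ (⊤ : Subgroup (GK K))) '' Set.univ).ncard : ℝ) /
      (Nat.card (GK K ⧸ (⊤ : Subgroup (GK K))) : ℝ) = 1 := by
    rw [Set.image_univ, Set.range_eq_univ.mpr (QuotientGroup.mk_surjective), Set.ncard_univ]
    exact div_self (by exact_mod_cast h6.ne')
  rw [hone] at key1
  refine key1.congr fun N => ?_
  unfold dens Pool.Agent.V8H88.GO.count
  congr 2
  apply Nat.card_congr
  refine Equiv.subtypeEquivRight fun v => ?_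
  have := (Pool.Agent.W401.Frob.main K).1 v
  simp only [Set.mem_univ, true_and, and_true, this]

/-- **Positive measure.** -/
theorem measure_frobs [MeasurableSpace (GK K)] [BorelSpace (GK K)] (μ : Measure (GK K))
    [μ.IsHaarMeasure] [μ.OuterRegular] (S T : Set (HeightOneSpectrum (𝓞 K)))
    (hS : UpperDensityAbove K S 0) (hT : T.Finite) (D : Set (GK K))
    (hconj : ∀ σ ∈ D, ∀ ρ : GK K, ρ * σ * ρ⁻¹ ∈ D)
    (hD : ∀ v ∈ S, v ∉ T → ∃ σ ∈ D, IsFrob v σ) : μ (closure D) ≠ 0 := by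
  intro h0
  obtain ⟨δ, hδ, hS⟩ := hS
  set C := closure D with hC
  have hconj' : ∀ σ ∈ C, ∀ ρ : GK K, ρ * σ * ρ⁻¹ ∈ C := by
    intro σ hσ ρ
    have hcont : Continuous fun σ : GK K => ρ * σ * ρ⁻¹ := by fun_prop
    exact map_mem_closure (f := fun σ : GK K => ρ * σ * ρ⁻¹) hcont hσ (fun τ hτ => hconj τ hτ ρ)
  have hμpos : 0 < μ (Set.univ : Set (GK K)) := by
    have := NeZero.ne μ
    exact isOpen_univ.measure_pos μ ⟨1, Set.mem_univ _⟩
  have hμfin : μ (Set.univ : Set (GK K)) < ⊤ := isCompact_univ.measure_lt_top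
  have hr : μ C < ENNReal.ofReal (δ / 8) * μ Set.univ := by
    rw [h0]
    exact ENNReal.mul_pos (by simpa using by positivity) hμpos.ne'
  obtain ⟨O, hCO, hO, hμO⟩ := Set.exists_isOpen_lt_of_lt C _ hr
  have hCk : IsCompact C := isClosed_closure.isCompact
  obtain ⟨W, hW, hCW⟩ := compact_open_separated_mul_right hCk hO hCO
  rw [mem_nhds_iff] at hW
  obtain ⟨W', hW'W, hW'o, h1W'⟩ := hW
  obtain ⟨U, hU⟩ := ProfiniteGrp.exist_openNormalSubgroup_sub_open_nhds_of_one hW'o h1W'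
  have hUo : IsOpen (U.toSubgroup : Set (GK K)) := U.isOpen'
  have hUn : U.toSubgroup.Normal := U.isNormal'
  set C' : Set (GK K) := {τ | ∃ c ∈ C, ∃ u ∈ U.toSubgroup, τ = c * u} with hC'
  have key := Pool.Agent.W528.Ord.chebK K U.toSubgroup hUo C' ?_ ?_
  rotate_left
  · rintro τ ⟨c, hc, u, hu, rfl⟩ ρ
    refine ⟨ρ * c * ρ⁻¹, hconj' c hc ρ, ρ * u * ρ⁻¹, hUn.conj_mem u hu ρ, ?_⟩
    group
  · rintro τ ⟨c, hc, u, hu, rfl⟩ w hw
    exact ⟨c, hc, u * w, U.toSubgroup.mul_mem hu hw, by rw [mul_assoc]⟩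
  have hfin : Finite (GK K ⧸ U.toSubgroup) := Subgroup.quotient_finite_of_isOpen _ hUo
  set a := ((QuotientGroup.mk : GK K → GK K ⧸ U.toSubgroup) '' C').ncard with ha
  set n := Nat.card (GK K ⧸ U.toSubgroup) with hn
  have hn0 : 0 < n := Nat.card_pos
  have hpre : (QuotientGroup.mk : GK K → GK K ⧸ U.toSubgroup) ⁻¹'
      ((QuotientGroup.mk : GK K → GK K ⧸ U.toSubgroup) '' C') = C' := by
    ext τ
    constructor
    · rintro ⟨τ', ⟨c, hc, u, hu, rfl⟩, h⟩
      rw [QuotientGroup.eq] at h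
      refine ⟨c, hc, u * ((c * u)⁻¹ * τ), U.toSubgroup.mul_mem hu h, ?_⟩
      group
    · intro h
      exact ⟨τ, h, rfl⟩
  have hC'O : C' ⊆ O := by
    rintro τ ⟨c, hc, u, hu, rfl⟩
    exact hCW (Set.mul_mem_mul hc (hW'W (hU hu)))
  have hU0 : 0 < μ (U.toSubgroup : Set (GK K)) := hUo.measure_pos μ ⟨1, U.toSubgroup.one_mem⟩
  have hUf : μ (U.toSubgroup : Set (GK K)) < ⊤ :=
    lt_of_le_of_lt (measure_mono (Set.subset_univ _)) hμfin
  have hle : (a : ENNReal) * μ (U.toSubgroup : Set (GK K)) <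
      ENNReal.ofReal (δ / 8) * ((n : ENNReal) * μ (U.toSubgroup : Set (GK K))) := by
    have e1 := measure_preimage μ U.toSubgroup hUo
      ((QuotientGroup.mk : GK K → GK K ⧸ U.toSubgroup) '' C')
    rw [hpre] at e1
    have e2 := measure_preimage μ U.toSubgroup hUo Set.univ
    rw [Set.preimage_univ, Set.ncard_univ] at e2
    rw [← e1, ← e2]
    exact lt_of_le_of_lt (measure_mono hC'O) hμO
  have hreal : (a : ℝ) < δ / 8 * n := by
    rw [← mul_assoc, ENNReal.mul_lt_mul_iff_left hU0.ne' hUf.ne] at hle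
    have h3 : (a : ENNReal) = ENNReal.ofReal (a : ℝ) := by simp
    have h4 : (n : ENNReal) = ENNReal.ofReal (n : ℝ) := by simp
    rw [h3, h4, ← ENNReal.ofReal_mul (by positivity)] at hle
    exact (ENNReal.ofReal_lt_ofReal_iff_of_nonneg (by positivity)).mp hle
  have hlim : (a : ℝ) / n < δ / 8 := by
    rw [div_lt_iff₀ (by exact_mod_cast hn0)]
    exact hreal
  have hsub : S ⊆ {v : HeightOneSpectrum (𝓞 K) | ∃ σ ∈ C', IsFrob v σ} ∪ T := by
    intro v hv
    by_cases hvT : v ∈ T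
    · exact Or.inr hvT
    · left
      obtain ⟨σ, hσD, hσ⟩ := hD v hv hvT
      exact ⟨σ, ⟨σ, subset_closure hσD, 1, U.toSubgroup.one_mem, (mul_one _).symm⟩, hσ⟩
  have h3 : Tendsto (fun n : ℕ => (T.ncard : ℝ) / (Nat.primeCounting n : ℝ)) atTop (𝓝 0) := by
    apply Tendsto.const_div_atTop
    exact tendsto_natCast_atTop_atTop.comp Nat.tendsto_primeCounting
  have e1 := key.eventually (gt_mem_nhds hlim)
  have e2 := (dens_univ K).eventually (lt_mem_nhds (show (1 : ℝ) / 2 < 1 by norm_num))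
  have e3 := h3.eventually (gt_mem_nhds (show (0 : ℝ) < δ / 8 by linarith))
  obtain ⟨N, hN, a1, a2, a3⟩ := (hS.and_eventually (e1.and (e2.and e3))).exists
  have b1 : count K S N ≤
      count K {v : HeightOneSpectrum (𝓞 K) | ∃ σ ∈ C', IsFrob v σ} N + T.ncard :=
    (count_le K hsub N).trans ((count_union K _ _ N).trans
      (Nat.add_le_add_left (count_finite K hT N) _))
  have c1 : (count K S N : ℝ) ≤
      (count K {v : HeightOneSpectrum (𝓞 K) | ∃ σ ∈ C', IsFrob v σ} N : ℝ) + (T.ncard : ℝ) := by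
    exact_mod_cast b1
  have d1 : dens (fun v : HeightOneSpectrum (𝓞 K) => ∃ σ ∈ C', IsFrob v σ) N =
      (count K {v : HeightOneSpectrum (𝓞 K) | ∃ σ ∈ C', IsFrob v σ} N : ℝ) /
        (Nat.primeCounting N : ℝ) := rfl
  rw [d1] at a1
  have c2 : δ * ((count K Set.univ N : ℝ) / (Nat.primeCounting N : ℝ)) ≤
      (count K {v : HeightOneSpectrum (𝓞 K) | ∃ σ ∈ C', IsFrob v σ} N : ℝ) /
        (Nat.primeCounting N : ℝ) + (T.ncard : ℝ) / (Nat.primeCounting N : ℝ) := by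
    rw [← mul_div_assoc, ← add_div]
    exact div_le_div_of_nonneg_right (hN.trans c1) (Nat.cast_nonneg _)
  have c3 : δ * (1 / 2) ≤ δ * ((count K Set.univ N : ℝ) / (Nat.primeCounting N : ℝ)) :=
    mul_le_mul_of_nonneg_left a2.le hδ.le
  linarith

theorem tendsto_split (Δ : Subgroup (GK K)) [Δ.Normal] (hΔ : IsOpen (Δ : Set (GK K))) :
    Tendsto (fun N : ℕ => (count K {v | ∃ σ ∈ Δ, IsFrob v σ} N : ℝ) /
      (Nat.primeCounting N : ℝ)) atTop (𝓝 (1 / (Nat.card (GK K ⧸ Δ) : ℝ))) := by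
  have key := Pool.Agent.W528.Ord.chebK K Δ hΔ (Δ : Set (GK K))
    (fun σ hσ τ => Subgroup.Normal.conj_mem (inferInstance : Δ.Normal) σ hσ τ)
    (fun σ hσ u hu => Δ.mul_mem hσ hu)
  have h1 : ((QuotientGroup.mk : GK K → GK K ⧸ Δ) '' (Δ : Set (GK K))).ncard = 1 := by
    rw [Set.ncard_eq_one]
    refine ⟨((1 : GK K) : GK K ⧸ Δ), ?_⟩
    ext c
    rw [Set.mem_singleton_iff]
    constructor
    · rintro ⟨σ, hσ, rfl⟩
      rw [QuotientGroup.eq]
      simpa using hσ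
    · rintro rfl
      exact ⟨1, Δ.one_mem, rfl⟩
  rw [h1, Nat.cast_one] at key
  exact key

/-- The primes in a set of large upper density which split. -/
theorem density_split (Δ : Subgroup (GK K)) [Δ.Normal] (hΔ : IsOpen (Δ : Set (GK K)))
    (S : Set (HeightOneSpectrum (𝓞 K)))
    (hS : UpperDensityAbove K S (1 - 1 / (Nat.card (GK K ⧸ Δ) : ℝ))) :
    UpperDensityAbove K (S ∩ {v | ∃ σ ∈ Δ, IsFrob v σ}) 0 := by
  obtain ⟨δ, hδ, hS⟩ := hS
  set d : ℝ := 1 / (Nat.card (GK K ⧸ Δ) : ℝ) with hd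
  set Q : Set (HeightOneSpectrum (𝓞 K)) := {v | ∃ σ ∈ Δ, IsFrob v σ} with hQ
  set ε : ℝ := (δ - (1 - d)) / 2 with hε
  have hε0 : 0 < ε := by rw [hε]; linarith
  refine ⟨ε, hε0, ?_⟩
  -- ratio to the number of all primes
  have hu := dens_univ K
  have hs := tendsto_split K Δ hΔ
  have hr : Tendsto (fun N : ℕ => (count K Q N : ℝ) / (Nat.primeCounting N : ℝ) -
      (d - ε) * ((count K Set.univ N : ℝ) / (Nat.primeCounting N : ℝ))) atTop
      (𝓝 (d - (d - ε) * 1)) := hs.sub (hu.const_mul _)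
  have hpos : ∀ᶠ N : ℕ in atTop, 0 < (count K Q N : ℝ) / (Nat.primeCounting N : ℝ) -
      (d - ε) * ((count K Set.univ N : ℝ) / (Nat.primeCounting N : ℝ)) :=
    hr.eventually (lt_mem_nhds (by linarith))
  refine (hS.and_eventually hpos).mono ?_
  rintro N ⟨h1, h2⟩
  have hp : 0 < (Nat.primeCounting N : ℝ) := by
    by_contra hcon
    have h3 : (Nat.primeCounting N : ℝ) = 0 := le_antisymm (not_lt.mp hcon) (Nat.cast_nonneg _)
    rw [h3] at h2
    simp at h2
  have h4 : (d - ε) * (count K Set.univ N : ℝ) < (count K Q N : ℝ) := by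
    rw [← mul_div_assoc, ← sub_div] at h2
    have := (div_pos_iff_of_pos_right hp).mp h2
    linarith
  have h5 : S ⊆ (S ∩ Q) ∪ Qᶜ := by
    intro v hv
    by_cases hq : v ∈ Q
    · exact Or.inl ⟨hv, hq⟩
    · exact Or.inr hq
  have h6 := (count_le K h5 N).trans (count_union K _ _ N)
  have h7 := count_compl K Q N
  have h8 : (count K S N : ℝ) ≤ (count K (S ∩ Q) N : ℝ) + (count K Qᶜ N : ℝ) := by exact_mod_cast h6
  have h9 : (count K Q N : ℝ) + (count K Qᶜ N : ℝ) = (count K Set.univ N : ℝ) := by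
    exact_mod_cast h7
  have h10 : δ = 1 - d + 2 * ε := by rw [hε]; ring
  rw [h10] at h1
  have h11 : (1 - d + 2 * ε) * (count K Set.univ N : ℝ) =
      (count K Set.univ N : ℝ) - (d - ε) * (count K Set.univ N : ℝ) +
        ε * (count K Set.univ N : ℝ) := by ring
  linarith

end Pool.Agent.V8H18.MD
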