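import Pool.Agent.V8H18.MD.RankTwo
import Pool.Agent.V8H18.MD.Dens

/-!
# Geometric origin from a set of primes of positive upper density
-/

set_option autoImplicit false

namespace Pool.Agent.V8H18.MD

open NumberField IsDedekindDomain Filter Topology Polynomial MeasureTheory
open Pool.Agent.W401.Cheb Pool.Agent.V8H88.GO

/-- The permutation representations on the conjugates of primitive elements of the finite Galois
extensions `L` of `K` are subquotients of cohomology groups (namely of `H⁰(Spec L)`). -/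
def HasArtin {K : Type} [Field K] [NumberField K] (H : Cohomology K) : Prop :=
  ∀ (Δ : Subgroup (GK K)) [Δ.Normal] [Fintype (GK K ⧸ Δ)] [DecidableEq (GK K ⧸ Δ)],
    IsOpen (Δ : Set (GK K)) → ∃ x : H.Obj, ∀ (p : ℕ) [Fact p.Prime],
      IsSubquotient (permRep (PadicAlgCl p) Δ) (H.rep p x)

variable {K : Type} [Field K] [NumberField K]

theorem basis (O : Set (GK K)) (hO : O ∈ 𝓝 (1 : GK K)) :
    ∃ U : Subgroup (GK K), U.Normal ∧ IsOpen (U : Set (GK K)) ∧ (U : Set (GK K)) ⊆ O := by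
  rw [mem_nhds_iff] at hO
  obtain ⟨O', hO'O, hO'o, h1⟩ := hO
  obtain ⟨U, hU⟩ := ProfiniteGrp.exist_openNormalSubgroup_sub_open_nhds_of_one hO'o h1
  exact ⟨U.toSubgroup, U.isNormal', U.isOpen', hU.trans hO'O⟩

theorem concl_arises (H : Cohomology K) (hA : HasArtin H) (p : ℕ) [Fact p.Prime] (x : H.Obj)
    {n : ℕ} (W : GK K →* Matrix (Fin n) (Fin n) (PadicAlgCl p)) (Δ : Subgroup (GK K)) [Δ.Normal]
    [Fintype (GK K ⧸ Δ)] [DecidableEq (GK K ⧸ Δ)] (hΔ : IsOpen (Δ : Set (GK K)))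
    (h : Concl (H.rep p x) W Δ) : H.Arises p W := by
  obtain ⟨l, a, b, U, hU, hsub⟩ := h
  obtain ⟨y, hy⟩ := tensorPower_sub H p x hU
  obtain ⟨z, hz⟩ := hA Δ hΔ
  obtain ⟨w, hw⟩ := H.tensor y z
  exact ⟨w, (hsub.trans (IsSubquotient.tensor hy (hz p))).trans (hw p)⟩

section any

variable (H : Cohomology K) {E : Type} [Field E] [NumberField E] {n : ℕ}
  (f : CompatibleSystem K E n)

/-- the Frobenius elements in `Δ` at the primes in `S` and not in `T` -/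
def Frobs (Δ : Subgroup (GK K)) (S T : Set (HeightOneSpectrum (𝓞 K))) : Set (GK K) :=
  {σ | σ ∈ Δ ∧ ∃ v ∈ S, v ∉ T ∧ IsFrob v σ}

theorem frobs_pos [MeasurableSpace (GK K)] [BorelSpace (GK K)] (μ : Measure (GK K))
    [μ.IsHaarMeasure] [μ.OuterRegular] (Δ : Subgroup (GK K)) [hn : Δ.Normal]
    (S T : Set (HeightOneSpectrum (𝓞 K)))
    (hS : UpperDensityAbove K S 0) (hSΔ : ∀ v ∈ S, ∃ σ ∈ Δ, IsFrob v σ) (hT : T.Finite) :
    μ (closure (Frobs Δ S T)) ≠ 0 := by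
  refine measure_frobs K μ S T hS hT (Frobs Δ S T) ?_ ?_
  · rintro σ ⟨hσ, v, hv, hvT, h⟩ ρ
    exact ⟨hn.conj_mem σ hσ ρ, v, hv, hvT, (Pool.Agent.W401.Frob.main K).2.2 v σ ρ h⟩
  · intro v hv hvT
    obtain ⟨σ, hσ, h⟩ := hSΔ v hv
    exact ⟨σ, ⟨hσ, v, hv, hvT, h⟩, h⟩

theorem nilp_frobs (x : H.Obj) (S : Set (HeightOneSpectrum (𝓞 K)))
    (hroot : ∀ v ∈ S, ∃ N : ℕ, f.poly v ∣ ((H.frob x v).map (algebraMap ℚ E)) ^ N)
    (p : ℕ) [hpp : Fact p.Prime] (hp : p ∈ f.primes) (ι : E →+* PadicAlgCl p)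
    (Δ : Subgroup (GK K)) :
    ∀ σ ∈ Frobs Δ S (f.bad ∪ H.bad x ∪ {v : HeightOneSpectrum (𝓞 K) | (p : 𝓞 K) ∈ v.asIdeal}),
      IsNilpotent (aeval (f.rep p ι σ) (H.rep p x σ).charpoly) := by
  rintro σ ⟨-, v, hv, hvT, hσ⟩
  rw [Set.mem_union, Set.mem_union, not_or, not_or] at hvT
  obtain ⟨N, hN⟩ := hroot v hv
  have h1 := H.charpoly_frob p x v hvT.1.2 hvT.2 σ hσ
  have h2 := f.charpoly_frob p ι hp v hvT.1.1 hvT.2 σ hσ
  have h3 := Polynomial.map_dvd ι hN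
  rw [Polynomial.map_pow, Polynomial.map_map, rat_comp, ← h1, ← h2] at h3
  obtain ⟨T', hT'⟩ := h3
  refine ⟨N, ?_⟩
  rw [← map_pow, hT', map_mul, Matrix.aeval_self_charpoly, zero_mul]

/-- **Any rank.** -/
theorem pos_density (x : H.Obj) (p : ℕ) [hpp : Fact p.Prime] (hp : p ∈ f.primes)
    (ι : E →+* PadicAlgCl p) (Δ : Subgroup (GK K)) [Δ.Normal] [Fintype (GK K ⧸ Δ)]
    [DecidableEq (GK K ⧸ Δ)] (hΔ : IsOpen (Δ : Set (GK K)))
    (hconn : ConnectedOn (H.rep p x) (f.rep p ι) Δ) (S : Set (HeightOneSpectrum (𝓞 K)))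
    (hS : UpperDensityAbove K S 0) (hSΔ : ∀ v ∈ S, ∃ σ ∈ Δ, IsFrob v σ)
    (hroot : ∀ v ∈ S, ∃ N : ℕ, f.poly v ∣ ((H.frob x v).map (algebraMap ℚ E)) ^ N) :
    Concl (H.rep p x) (f.rep p ι) Δ := by
  let _ : MeasurableSpace (GK K) := borel (GK K)
  have _ : BorelSpace (GK K) := ⟨rfl⟩
  set T : Set (HeightOneSpectrum (𝓞 K)) :=
    f.bad ∪ H.bad x ∪ {v : HeightOneSpectrum (𝓞 K) | (p : 𝓞 K) ∈ v.asIdeal} with hT
  have hTf : T.Finite :=
    (f.finite_bad.union (H.finite_bad x)).union (finite_over K p hpp.out)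
  exact any_rank (H.rep p x) (f.rep p ι) (H.continuous_rep p x) (f.continuous_rep p ι hp)
    (f.irreducible p ι hp) basis (Measure.haar : Measure (GK K)) Δ hΔ hconn (Frobs Δ S T)
    (fun σ hσ => hσ.1) (frobs_pos _ Δ S T hS hSΔ hTf) (nilp_frobs H f x S hroot p hp ι Δ)

/-- **Any rank, connected monodromy.** -/
theorem pos_density_top (x : H.Obj) (p : ℕ) [hpp : Fact p.Prime] (hp : p ∈ f.primes)
    (ι : E →+* PadicAlgCl p)
    (hconn : ConnectedOn (H.rep p x) (f.rep p ι) ⊤) (S : Set (HeightOneSpectrum (𝓞 K)))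
    (hS : UpperDensityAbove K S 0)
    (hroot : ∀ v ∈ S, ∃ N : ℕ, f.poly v ∣ ((H.frob x v).map (algebraMap ℚ E)) ^ N) :
    ∃ (l : Type) (a : Fintype l) (b : DecidableEq l) (U : GK K →* Matrix l l (PadicAlgCl p)),
      IsTensorPower (H.rep p x) l a b U ∧ IsSubquotient (f.rep p ι) U := by
  let _ : MeasurableSpace (GK K) := borel (GK K)
  have _ : BorelSpace (GK K) := ⟨rfl⟩
  set T : Set (HeightOneSpectrum (𝓞 K)) :=
    f.bad ∪ H.bad x ∪ {v : HeightOneSpectrum (𝓞 K) | (p : 𝓞 K) ∈ v.asIdeal} with hT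
  have hTf : T.Finite :=
    (f.finite_bad.union (H.finite_bad x)).union (finite_over K p hpp.out)
  have hn : (⊤ : Subgroup (GK K)).Normal := inferInstance
  exact any_rank_top (H.rep p x) (f.rep p ι) (H.continuous_rep p x) (f.continuous_rep p ι hp)
    (f.irreducible p ι hp) basis (Measure.haar : Measure (GK K)) ⊤
    (by rw [Subgroup.coe_top]; exact isOpen_univ) hconn (Frobs ⊤ S T)
    (fun σ hσ => hσ.1) (frobs_pos _ ⊤ S T hS (fun v _ => by
      obtain ⟨σ, hσ⟩ := (Pool.Agent.W401.Frob.main K).1 v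
      exact ⟨σ, trivial, hσ⟩) hTf) rfl (nilp_frobs H f x S hroot p hp ι ⊤)

theorem arises_all (p : ℕ) [hpp : Fact p.Prime] (hp : p ∈ f.primes) (ι : E →+* PadicAlgCl p)
    (h : H.Arises p (f.rep p ι)) (q : ℕ) [Fact q.Prime] (hq : q ∈ f.primes)
    (κ : E →+* PadicAlgCl q) : H.Arises q (f.rep q κ) := by
  obtain ⟨x, hx⟩ := h
  obtain ⟨S, hS, hroot⟩ := independence' H f p hp ι x hx
  obtain ⟨l, a, b, U, hU, hsub⟩ := all_roots H f x S hS hroot q hq κ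
  obtain ⟨y, hy⟩ := tensorPower_sub H q x hU
  exact ⟨y, hsub.trans hy⟩

end any

section two

variable (H : Cohomology K) {E : Type} [Field E] [NumberField E]
  (f : NewformSystem K E)

theorem root_frobs (x : H.Obj) (S : Set (HeightOneSpectrum (𝓞 K)))
    (hroot : ∀ v ∈ S, ¬ IsCoprime (f.hecke v) ((H.frob x v).map (algebraMap ℚ E)))
    (p : ℕ) [hpp : Fact p.Prime] (hp : p ∈ f.primes) (ι : E →+* PadicAlgCl p)
    (Δ : Subgroup (GK K)) :
    ∀ σ ∈ Frobs Δ S (f.bad ∪ H.bad x ∪ {v : HeightOneSpectrum (𝓞 K) | (p : 𝓞 K) ∈ v.asIdeal}),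
      ∃ c, (H.rep p x σ).charpoly.IsRoot c ∧ (f.rep p ι σ).charpoly.IsRoot c := by
  rintro σ ⟨-, v, hv, hvT, hσ⟩
  rw [Set.mem_union, Set.mem_union, not_or, not_or] at hvT
  obtain ⟨c, h1, h2⟩ := exists_common_root ι (hroot v hv)
  refine ⟨c, ?_, ?_⟩
  · rw [H.charpoly_frob p x v hvT.1.2 hvT.2 σ hσ]
    rwa [Polynomial.map_map, rat_comp] at h2
  · rw [f.charpoly_frob p ι hp v hvT.1.1 hvT.2 σ hσ]
    exact h1

/-- **Rank two.** -/
theorem pos_density_two (x : H.Obj) (p : ℕ) [hpp : Fact p.Prime] (hp : p ∈ f.primes)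
    (ι : E →+* PadicAlgCl p) (Δ : Subgroup (GK K)) [hn : Δ.Normal] [Fintype (GK K ⧸ Δ)]
    [DecidableEq (GK K ⧸ Δ)] (hΔ : IsOpen (Δ : Set (GK K)))
    (hconn : ConnectedOn (H.rep p x) (f.rep p ι) Δ) (S : Set (HeightOneSpectrum (𝓞 K)))
    (hS : UpperDensityAbove K S 0) (hSΔ : ∀ v ∈ S, ∃ σ ∈ Δ, IsFrob v σ)
    (hroot : ∀ v ∈ S, ¬ IsCoprime (f.hecke v) ((H.frob x v).map (algebraMap ℚ E))) :
    Concl (H.rep p x) (f.rep p ι) Δ := by
  let _ : MeasurableSpace (GK K) := borel (GK K)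
  have _ : BorelSpace (GK K) := ⟨rfl⟩
  set T : Set (HeightOneSpectrum (𝓞 K)) :=
    f.bad ∪ H.bad x ∪ {v : HeightOneSpectrum (𝓞 K) | (p : 𝓞 K) ∈ v.asIdeal} with hT
  have hTf : T.Finite :=
    (f.finite_bad.union (H.finite_bad x)).union (finite_over K p hpp.out)
  exact rank_two (H.rep p x) (f.rep p ι) (H.continuous_rep p x) (f.continuous_rep p ι hp)
    (f.irreducible p ι hp) basis (Measure.haar : Measure (GK K)) Δ hΔ hconn (Frobs Δ S T)
    (fun σ hσ => hσ.1) (frobs_pos _ Δ S T hS hSΔ hTf) hn (root_frobs H f x S hroot p hp ι Δ)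

/-- **Rank two, connected monodromy.** -/
theorem pos_density_two_top (x : H.Obj) (p : ℕ) [hpp : Fact p.Prime] (hp : p ∈ f.primes)
    (ι : E →+* PadicAlgCl p)
    (hconn : ConnectedOn (H.rep p x) (f.rep p ι) ⊤) (S : Set (HeightOneSpectrum (𝓞 K)))
    (hS : UpperDensityAbove K S 0)
    (hroot : ∀ v ∈ S, ¬ IsCoprime (f.hecke v) ((H.frob x v).map (algebraMap ℚ E))) :
    ∃ (l : Type) (a : Fintype l) (b : DecidableEq l) (U : GK K →* Matrix l l (PadicAlgCl p)),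
      IsTensorPower (H.rep p x) l a b U ∧ IsSubquotient (f.rep p ι) U := by
  let _ : MeasurableSpace (GK K) := borel (GK K)
  have _ : BorelSpace (GK K) := ⟨rfl⟩
  set T : Set (HeightOneSpectrum (𝓞 K)) :=
    f.bad ∪ H.bad x ∪ {v : HeightOneSpectrum (𝓞 K) | (p : 𝓞 K) ∈ v.asIdeal} with hT
  have hTf : T.Finite :=
    (f.finite_bad.union (H.finite_bad x)).union (finite_over K p hpp.out)
  have hn : (⊤ : Subgroup (GK K)).Normal := inferInstance
  exact rank_two_top (H.rep p x) (f.rep p ι) (H.continuous_rep p x) (f.continuous_rep p ι hp)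
    (f.irreducible p ι hp) basis (Measure.haar : Measure (GK K)) ⊤
    (by rw [Subgroup.coe_top]; exact isOpen_univ) hconn (Frobs ⊤ S T)
    (fun σ hσ => hσ.1) (frobs_pos _ ⊤ S T hS (fun v _ => by
      obtain ⟨σ, hσ⟩ := (Pool.Agent.W401.Frob.main K).1 v
      exact ⟨σ, trivial, hσ⟩) hTf) rfl (root_frobs H f x S hroot p hp ι ⊤)

theorem arises_all_two (p : ℕ) [hpp : Fact p.Prime] (hp : p ∈ f.primes)
    (ι : E →+* PadicAlgCl p) (h : H.Arises p (f.rep p ι)) (q : ℕ) [Fact q.Prime]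
    (hq : q ∈ f.primes) (κ : E →+* PadicAlgCl q) : H.Arises q (f.rep q κ) := by
  obtain ⟨x, hx⟩ := h
  obtain ⟨S, hS, hroot⟩ := independence H f p hp ι x hx
  obtain ⟨l, a, b, U, hU, hsub⟩ := one_root H f x S hS hroot q hq κ
  obtain ⟨y, hy⟩ := tensorPower_sub H q x hU
  exact ⟨y, hsub.trans hy⟩

end two

end Pool.Agent.V8H18.MD
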