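import Pool.Agent.V8H18.MD.Sub

/-!
# Subquotients of tensor products with permutation representations
-/

set_option autoImplicit false

namespace Pool.Agent.V8H18.MD

open Matrix Polynomial Pool.Agent.V8H88.GO

variable {Γ : Type} [Group Γ]

/-- The permutation representation on the cosets of `Δ`. -/
def permRep (k : Type) [Field k] (Δ : Subgroup Γ) [Fintype (Γ ⧸ Δ)] [DecidableEq (Γ ⧸ Δ)] :
    Γ →* Matrix (Γ ⧸ Δ) (Γ ⧸ Δ) k where
  toFun g := Matrix.of fun c d => if c = g • d then 1 else 0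
  map_one' := by
    ext c d
    simp [Matrix.one_apply]
  map_mul' g h := by
    ext c d
    simp [Matrix.mul_apply, mul_smul, Finset.sum_ite_eq']

variable {k : Type} [Field k]
variable {n m : Type} [Fintype n] [DecidableEq n] [Fintype m] [DecidableEq m]

theorem permRep_apply (Δ : Subgroup Γ) [Fintype (Γ ⧸ Δ)] [DecidableEq (Γ ⧸ Δ)] (g : Γ)
    (c d : Γ ⧸ Δ) : permRep k Δ g c d = if c = g • d then 1 else 0 := rfl

theorem tensor_perm_mulVec (U : Γ →* Matrix n n k) (Δ : Subgroup Γ) [Fintype (Γ ⧸ Δ)]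
    [DecidableEq (Γ ⧸ Δ)] (g : Γ) (φ : n × (Γ ⧸ Δ) → k) (i : n) (c : Γ ⧸ Δ) :
    (tensor U (permRep k Δ) g *ᵥ φ) (i, c) = (U g *ᵥ fun i' => φ (i', g⁻¹ • c)) i := by
  simp only [mulVec, dotProduct, tensor, MonoidHom.coe_mk, OneHom.coe_mk, kroneckerMap_apply]
  rw [Fintype.sum_prod_type]
  refine Finset.sum_congr rfl fun i' _ => ?_
  rw [Finset.sum_eq_single (g⁻¹ • c)]
  · rw [permRep_apply, smul_inv_smul, if_pos rfl, mul_one]
  · intro d _ hd
    rw [permRep_apply, if_neg, mul_zero, zero_mul]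
    rintro rfl
    exact hd (by rw [inv_smul_smul])
  · intro h; exact absurd (Finset.mem_univ _) h

section

variable (U : Γ →* Matrix n n k) (Δ : Subgroup Γ) [Fintype (Γ ⧸ Δ)] [DecidableEq (Γ ⧸ Δ)]

/-- the component of a vector at a representative of a coset -/
def comp (t : Γ) : (n × (Γ ⧸ Δ) → k) →ₗ[k] (n → k) where
  toFun φ := U t⁻¹ *ᵥ fun i => φ (i, (t : Γ ⧸ Δ))
  map_add' φ ψ := by
    rw [← mulVec_add]; rfl
  map_smul' c φ := by
    rw [RingHom.id_apply, ← mulVec_smul]; rfl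

theorem comp_apply (t : Γ) (φ : n × (Γ ⧸ Δ) → k) :
    comp U Δ t φ = U t⁻¹ *ᵥ fun i => φ (i, (t : Γ ⧸ Δ)) := rfl

theorem comp_act (t g : Γ) (φ : n × (Γ ⧸ Δ) → k) :
    comp U Δ t (tensor U (permRep k Δ) g *ᵥ φ) = comp U Δ (g⁻¹ * t) φ := by
  rw [comp_apply, comp_apply]
  have h1 : (fun i => (tensor U (permRep k Δ) g *ᵥ φ) (i, (t : Γ ⧸ Δ))) =
      U g *ᵥ fun i' => φ (i', ((g⁻¹ * t : Γ) : Γ ⧸ Δ)) := by
    funext i
    rw [tensor_perm_mulVec]
    rfl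
  rw [h1, mulVec_mulVec, ← map_mul, _root_.mul_inv_rev, inv_inv]

theorem comp_mul (t : Γ) (δ : Δ) (φ : n × (Γ ⧸ Δ) → k) :
    comp U Δ (t * δ) φ = U (δ : Γ)⁻¹ *ᵥ comp U Δ t φ := by
  rw [comp_apply, comp_apply, mulVec_mulVec, ← map_mul, _root_.mul_inv_rev]
  congr 1
  have : ((t * δ : Γ) : Γ ⧸ Δ) = (t : Γ ⧸ Δ) := QuotientGroup.mk_mul_of_mem t δ.2
  rw [this]

/-- **Frobenius reciprocity.** -/
theorem reciprocity {W : Γ →* Matrix m m k} (hW : IsIrreducible W) {d : ℕ} (hd : 0 < d)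
    (P : Piece W Δ d) (hP : IsSubquotient P.rep (U.comp Δ.subtype)) :
    IsSubquotient W (tensor U (permRep k Δ)) := by
  classical
  obtain ⟨M, f, h1, h2⟩ := hP
  let Φ : Γ → (n × (Γ ⧸ Δ) → k) →ₗ[k] (m → k) := fun t =>
    (Matrix.toLin' (W t)) ∘ₗ P.j ∘ₗ f ∘ₗ comp U Δ t
  have hΦ : ∀ t φ, Φ t φ = W t *ᵥ P.j (f (comp U Δ t φ)) := fun t φ => by
    simp only [Φ, LinearMap.comp_apply, Matrix.toLin'_apply]
  let F : (n × (Γ ⧸ Δ) → k) →ₗ[k] (m → k) := ∑ c : Γ ⧸ Δ, Φ c.out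
  let N : Submodule k (n × (Γ ⧸ Δ) → k) := ⨅ t : Γ, M.comap (comp U Δ t)
  have hN : ∀ φ, φ ∈ N ↔ ∀ t, comp U Δ t φ ∈ M := by
    intro φ
    simp only [N, Submodule.mem_iInf, Submodule.mem_comap]
  -- independence of the representative
  have hind : ∀ φ ∈ N, ∀ t s : Γ, (t : Γ ⧸ Δ) = (s : Γ ⧸ Δ) → Φ t φ = Φ s φ := by
    intro φ hφ t s hts
    rw [QuotientGroup.eq] at hts
    have hs : s = t * (⟨t⁻¹ * s, hts⟩ : Δ) := by simp
    rw [hs, hΦ, hΦ, comp_mul]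
    set δ : Δ := ⟨t⁻¹ * s, hts⟩ with hδ
    have h3 := (h1 δ⁻¹ (comp U Δ t φ) ((hN φ).mp hφ t)).2
    have h4 : (U.comp Δ.subtype) δ⁻¹ = U (δ : Γ)⁻¹ := rfl
    rw [h4] at h3
    rw [h3, P.equiv, mulVec_mulVec, ← map_mul]
    congr 2
    simp
  have hact : ∀ g, ∀ φ ∈ N, tensor U (permRep k Δ) g *ᵥ φ ∈ N ∧
      F (tensor U (permRep k Δ) g *ᵥ φ) = W g *ᵥ F φ := by
    intro g φ hφ
    refine ⟨?_, ?_⟩
    · rw [hN]
      intro t
      rw [comp_act]
      exact (hN φ).mp hφ _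
    · have h5 : ∀ t, Φ t (tensor U (permRep k Δ) g *ᵥ φ) = W g *ᵥ Φ (g⁻¹ * t) φ := by
        intro t
        rw [hΦ, hΦ, comp_act, mulVec_mulVec, ← map_mul, mul_inv_cancel_left]
      have h6 : F φ = ∑ c : Γ ⧸ Δ, Φ (g⁻¹ * (c.out)) φ := by
        change (∑ c : Γ ⧸ Δ, Φ c.out) φ = _
        rw [LinearMap.sum_apply]
        refine Fintype.sum_equiv (MulAction.toPerm g) _ _ fun c => ?_
        apply hind φ hφ
        rw [QuotientGroup.out_eq', MulAction.toPerm_apply]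
        have h7 : ((g⁻¹ * (g • c).out : Γ) : Γ ⧸ Δ) = g⁻¹ • (((g • c).out : Γ) : Γ ⧸ Δ) := rfl
        rw [h7, QuotientGroup.out_eq', inv_smul_smul]
      rw [h6]
      change (∑ c : Γ ⧸ Δ, Φ c.out) _ = _
      rw [LinearMap.sum_apply]
      simp only [h5]
      rw [← Matrix.mulVec_sum]
  refine ⟨N, F, hact, ?_⟩
  -- the image is invariant and not zero
  refine (hW.2 (N.map F) ?_).resolve_left ?_
  · rintro g _ ⟨φ, hφ, rfl⟩
    exact ⟨_, (hact g φ hφ).1, (hact g φ hφ).2⟩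
  · intro h0
    have hx : (Pi.single ⟨0, hd⟩ 1 : Fin d → k) ∈ M.map f := by rw [h2]; trivial
    obtain ⟨x, hxM, hx⟩ := hx
    let φ : n × (Γ ⧸ Δ) → k := fun p => if p.2 = ((1 : Γ) : Γ ⧸ Δ) then x p.1 else 0
    have hφt : ∀ t : Γ, t ∈ Δ → comp U Δ t φ = U t⁻¹ *ᵥ x := by
      intro t ht
      rw [comp_apply]
      congr 1
      funext i
      have : (t : Γ ⧸ Δ) = ((1 : Γ) : Γ ⧸ Δ) := by
        rw [QuotientGroup.eq]; simpa using ht
      simp [φ, this]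
    have hφt' : ∀ t : Γ, t ∉ Δ → comp U Δ t φ = 0 := by
      intro t ht
      rw [comp_apply]
      have : (t : Γ ⧸ Δ) ≠ ((1 : Γ) : Γ ⧸ Δ) := by
        rw [Ne, QuotientGroup.eq]; simpa using ht
      have h8 : (fun i => φ (i, (t : Γ ⧸ Δ))) = 0 := by
        funext i
        simp only [φ, this, if_false, Pi.zero_apply]
      rw [h8, mulVec_zero]
    have hφN : φ ∈ N := by
      rw [hN]
      intro t
      by_cases ht : t ∈ Δ
      · rw [hφt t ht]
        exact (h1 (⟨t, ht⟩ : Δ)⁻¹ x hxM).1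
      · rw [hφt' t ht]; exact M.zero_mem
    have h9 : F φ = P.j (f x) := by
      change (∑ c : Γ ⧸ Δ, Φ c.out) φ = _
      rw [LinearMap.sum_apply, Finset.sum_eq_single (((1 : Γ) : Γ ⧸ Δ))]
      · rw [hind φ hφN _ 1 (QuotientGroup.out_eq' _), hΦ, hφt 1 Δ.one_mem, inv_one, map_one,
          map_one, one_mulVec, one_mulVec]
      · intro c _ hc
        rw [hΦ, hφt', map_zero, map_zero, mulVec_zero]
        intro hcon
        apply hc
        rw [← QuotientGroup.out_eq' c, QuotientGroup.eq]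
        simpa using hcon
      · intro h; exact absurd (Finset.mem_univ _) h
    have h10 : F φ ∈ N.map F := ⟨φ, hφN, rfl⟩
    rw [h0, Submodule.mem_bot, h9, hx] at h10
    have h11 := P.inj (h10.trans (map_zero P.j).symm)
    have h12 := congrFun h11 ⟨0, hd⟩
    simp at h12

end

end Pool.Agent.V8H18.MD
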