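import Pool.Agent.V8H18.MD.Ind
import Pool.Agent.V8H18.MD.Conn

/-!
# Common eigenvalues on sets of positive measure
-/

set_option autoImplicit false

namespace Pool.Agent.V8H18.MD

open Matrix Polynomial Topology MeasureTheory Pool.Agent.V8H88.GO

variable {k Γ : Type} [Field k] [Group Γ]
variable {n m : Type} [Fintype n] [DecidableEq n] [Fintype m] [DecidableEq m]

/-- The conclusion. -/
def Concl (V : Γ →* Matrix n n k) (W : Γ →* Matrix m m k) (Δ : Subgroup Γ) [Fintype (Γ ⧸ Δ)]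
    [DecidableEq (Γ ⧸ Δ)] : Prop :=
  ∃ (l : Type) (x : Fintype l) (y : DecidableEq l) (U : Γ →* Matrix l l k),
    IsTensorPower V l x y U ∧ IsSubquotient W (tensor U (permRep k Δ))

theorem pos_of_irr {d : ℕ} {Δ : Subgroup Γ} {R : Δ →* Matrix (Fin d) (Fin d) k}
    (h : IsIrreducible R) : 0 < d := by
  obtain ⟨i⟩ := h.1
  exact lt_of_le_of_lt (Nat.zero_le _) i.2

/-- From pieces to the conclusion. -/
theorem concl_of_piece [IsAlgClosed k] [CharZero k] (V : Γ →* Matrix n n k)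
    (W : Γ →* Matrix m m k) (hW : IsIrreducible W) (Δ : Subgroup Γ) [Fintype (Γ ⧸ Δ)]
    [DecidableEq (Γ ⧸ Δ)] {d : ℕ} (P : Piece W Δ d) (hP : IsIrreducible P.rep)
    (h : ∀ g : Δ, IsNilpotent (aeval (P.rep g) (V g).charpoly)) : Concl V W Δ := by
  obtain ⟨l, x, y, U, hU, hs⟩ := all_dim (V.comp Δ.subtype) P.rep hP h
  obtain ⟨U', hU', rfl⟩ := lift_tensorPower V Δ hU
  exact ⟨l, x, y, U', hU', reciprocity U' Δ hW (pos_of_irr hP) P hs⟩

section top

variable [TopologicalSpace Γ] [TopologicalSpace k] [IsTopologicalRing k] [T2Space k]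
  [IsTopologicalGroup Γ] [CompactSpace Γ] [MeasurableSpace Γ] [BorelSpace Γ]

/-- Positive measure is enough, for sets which are not closed. -/
theorem vanish' (V : Γ →* Matrix n n k) (W : Γ →* Matrix m m k) (hV : Continuous V)
    (hW : Continuous W)
    (hbasis : ∀ W ∈ 𝓝 (1 : Γ), ∃ U : Subgroup Γ, U.Normal ∧ IsOpen (U : Set Γ) ∧ (U : Set Γ) ⊆ W)
    (μ : Measure Γ) [μ.IsHaarMeasure] [μ.InnerRegularCompactLTTop]
    (Δ : Subgroup Γ) (hΔ : IsOpen (Δ : Set Γ)) (hconn : ConnectedOn V W Δ)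
    (D : Set Γ) (hD : D ⊆ Δ) (hμ : μ (closure D) ≠ 0) (b : RB V W)
    (h0 : ∀ g ∈ D, evg V W g b = 0) : ∀ g ∈ Δ, evg V W g b = 0 := by
  have hΔc : IsClosed (Δ : Set Γ) := Subgroup.isClosed_of_isOpen Δ hΔ
  have hc : Continuous b.1 := RB_cont V W hV hW b.1 b.2
  refine vanish V W hV hW hbasis μ Δ hΔ hconn (closure D) (closure_minimal hD hΔc) hμ b.1 b.2 ?_
  have hcl : IsClosed {g | b.1 g = 0} := isClosed_eq hc continuous_const
  exact closure_minimal h0 hcl

variable (V : Γ →* Matrix n n k) (W : Γ →* Matrix m m k) (hV : Continuous V) (hW : Continuous W)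
    (hirr : IsIrreducible W)
    (hbasis : ∀ W ∈ 𝓝 (1 : Γ), ∃ U : Subgroup Γ, U.Normal ∧ IsOpen (U : Set Γ) ∧ (U : Set Γ) ⊆ W)
    (μ : Measure Γ) [μ.IsHaarMeasure] [μ.InnerRegularCompactLTTop]
    (Δ : Subgroup Γ) (hΔ : IsOpen (Δ : Set Γ)) (hconn : ConnectedOn V W Δ)
    (D : Set Γ) (hD : D ⊆ Δ) (hμ : μ (closure D) ≠ 0)

include hV hW hbasis hΔ hconn hD hμ

theorem nilp_on (h : ∀ g ∈ D, IsNilpotent (aeval (W g) (V g).charpoly)) :
    ∀ g ∈ Δ, IsNilpotent (aeval (W g) (V g).charpoly) := by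
  intro g hg
  refine ⟨Fintype.card m, ?_⟩
  have h' : ∀ g ∈ D, (aeval (W g) (V g).charpoly) ^ Fintype.card m = 0 := by
    intro g hg
    have h2 := Matrix.isNilpotent_charpoly_sub_pow_of_isNilpotent (h g hg)
    have h3 := sub_eq_zero.mp h2.eq_zero
    have h4 := Matrix.aeval_self_charpoly (aeval (W g) (V g).charpoly)
    rw [h3, map_pow, aeval_X] at h4
    exact h4
  have hmap : ∀ g, ((aeval (gW V W) (gV V W).charpoly) ^ Fintype.card m).map (evg V W g) =
      (aeval (W g) (V g).charpoly) ^ Fintype.card m := by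
    intro g
    have h6 : ((aeval (gW V W) (gV V W).charpoly) ^ Fintype.card m).map (evg V W g) =
        ((aeval (gW V W) (gV V W).charpoly).map (evg V W g)) ^ Fintype.card m :=
      map_pow ((evg V W g : RB V W →+* k).mapMatrix) _ _
    rw [h6]
    have h7 := map_aeval_matrix (evg V W g : RB V W →+* k) (gW V W) (gV V W).charpoly
    rw [← Matrix.charpoly_map] at h7
    have h8 : (aeval (gW V W) (gV V W).charpoly).map (evg V W g) =
        aeval (W g) (V g).charpoly := h7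
    rw [h8]
  rw [← hmap g]
  ext i j
  refine vanish' V W hV hW hbasis μ Δ hΔ hconn D hD hμ
    (((aeval (gW V W) (gV V W).charpoly) ^ Fintype.card m) i j) ?_ g hg
  intro g hg
  have h9 := hmap g
  rw [h' g hg] at h9
  exact congrFun (congrFun h9 i) j

include hirr

/-- **Any rank.** -/
theorem any_rank [IsAlgClosed k] [CharZero k] [Fintype (Γ ⧸ Δ)] [DecidableEq (Γ ⧸ Δ)]
    (h : ∀ g ∈ D, IsNilpotent (aeval (W g) (V g).charpoly)) : Concl V W Δ := by
  have h1 := nilp_on V W hV hW hbasis μ Δ hΔ hconn D hD hμ h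
  have : Nonempty m := hirr.1
  obtain ⟨d, P, hP⟩ := exists_irreducible_piece W Δ
  exact concl_of_piece V W hirr Δ P hP fun g => P.nilp g _ (h1 g g.2)

/-- **Any rank, connected monodromy.** -/
theorem any_rank_top [IsAlgClosed k] [CharZero k] (htop : Δ = ⊤)
    (h : ∀ g ∈ D, IsNilpotent (aeval (W g) (V g).charpoly)) :
    ∃ (l : Type) (x : Fintype l) (y : DecidableEq l) (U : Γ →* Matrix l l k),
      IsTensorPower V l x y U ∧ IsSubquotient W U := by
  have h1 := nilp_on V W hV hW hbasis μ Δ hΔ hconn D hD hμ h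
  exact all_dim V W hirr fun g => h1 g (by rw [htop]; trivial)

end top

end Pool.Agent.V8H18.MD
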