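import Pool.Agent.V8H18.MD.Rank

/-!
# Rank two, one common eigenvalue on a set of positive measure
-/

set_option autoImplicit false

namespace Pool.Agent.V8H18.MD

open Matrix Polynomial Topology MeasureTheory Pool.Agent.V8H88.GO

variable {k Γ : Type} [Field k] [Group Γ]
variable {n m : Type} [Fintype n] [DecidableEq n] [Fintype m] [DecidableEq m]

/-- a common eigenvector for `Δ` -/
def Eig (W : Γ →* Matrix m m k) (Δ : Subgroup Γ) (v : m → k) : Prop :=
  v ≠ 0 ∧ ∀ g ∈ Δ, ∃ c : k, W g *ᵥ v = c • v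

theorem aeval_eig (A : Matrix m m k) (v : m → k) (c : k) (h : A *ᵥ v = c • v) (p : k[X]) :
    aeval A p *ᵥ v = p.eval c • v := by
  induction p using Polynomial.induction_on' with
  | add p q hp hq => simp only [map_add, add_mulVec, hp, hq, eval_add, add_smul]
  | monomial r a =>
    have h1 : A ^ r *ᵥ v = c ^ r • v := by
      induction r with
      | zero => rw [pow_zero, pow_zero, one_mulVec, one_smul]
      | succ r ih => rw [pow_succ, ← mulVec_mulVec, h, mulVec_smul, ih, smul_smul, pow_succ,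
          mul_comm]
    rw [aeval_monomial, Algebra.algebraMap_eq_smul_one, smul_mul_assoc, one_mul, smul_mulVec, h1,
      eval_monomial, smul_smul]

/-- the value of the character of a common eigenvector -/
noncomputable def rv (V : Γ →* Matrix n n k) (W : Γ →* Matrix m m k) (v : m → k) (i : m) :
    RB V W := ∑ j, (v j * (v i)⁻¹) • gW V W i j

theorem evg_rv (V : Γ →* Matrix n n k) (W : Γ →* Matrix m m k) (v : m → k) (i : m) (g : Γ) :
    evg V W g (rv V W v i) = (W g *ᵥ v) i * (v i)⁻¹ := by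
  rw [rv, map_sum, mulVec, dotProduct, Finset.sum_mul]
  refine Finset.sum_congr rfl fun j _ => ?_
  rw [map_smul, smul_eq_mul]
  have : evg V W g (gW V W i j) = W g i j := rfl
  rw [this]
  ring

theorem evg_rv_eig (V : Γ →* Matrix n n k) (W : Γ →* Matrix m m k) (v : m → k) (i : m)
    (hi : v i ≠ 0) (g : Γ) (c : k) (h : W g *ᵥ v = c • v) : evg V W g (rv V W v i) = c := by
  rw [evg_rv, h, Pi.smul_apply, smul_eq_mul, mul_assoc, mul_inv_cancel₀ hi, mul_one]

/-- the characteristic polynomial of `V` at the value of the character -/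
noncomputable def bv (V : Γ →* Matrix n n k) (W : Γ →* Matrix m m k) (v : m → k) (i : m) :
    RB V W := (gV V W).charpoly.eval (rv V W v i)

theorem evg_bv (V : Γ →* Matrix n n k) (W : Γ →* Matrix m m k) (v : m → k) (i : m) (g : Γ) :
    evg V W g (bv V W v i) = (V g).charpoly.eval (evg V W g (rv V W v i)) := by
  have h1 := Matrix.charpoly_map (gV V W) (evg V W g : RB V W →+* k)
  have h2 : (gV V W).map (evg V W g : RB V W →+* k) = V g := evg_gV V W g
  rw [h2] at h1
  rw [h1, bv]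
  exact (Polynomial.eval_map_apply (evg V W g : RB V W →+* k) _).symm

theorem piece_of_eig [IsAlgClosed k] [CharZero k] (V : Γ →* Matrix n n k)
    (W : Γ →* Matrix m m k) (hW : IsIrreducible W) (Δ : Subgroup Γ) [Fintype (Γ ⧸ Δ)]
    [DecidableEq (Γ ⧸ Δ)] (v : m → k) (hv : Eig W Δ v) (i : m) (hi : v i ≠ 0)
    (h : ∀ g ∈ Δ, evg V W g (bv V W v i) = 0) : Concl V W Δ := by
  obtain ⟨d, P, hP⟩ := exists_piece W Δ (Submodule.span k {v}) (by
    intro g hg x hx
    obtain ⟨a, rfl⟩ := Submodule.mem_span_singleton.mp hx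
    obtain ⟨c, hc⟩ := hv.2 g hg
    rw [mulVec_smul, hc]
    exact Submodule.smul_mem _ _ (Submodule.smul_mem _ _ (Submodule.mem_span_singleton_self v)))
  have hat : IsAtom (Submodule.span k {v}) := nonzero_span_atom v hv.1
  refine concl_of_piece V W hW Δ P ⟨?_, ?_⟩ ?_
  · by_contra hne
    rw [not_nonempty_iff] at hne
    apply hat.1
    rw [← hP, LinearMap.range_eq_bot]
    ext x
    exact hne.elim x
  · intro N hN
    have h1 : N.map P.j ≤ Submodule.span k {v} := by
      rw [← hP]; exact LinearMap.map_le_range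
    rcases hat.le_iff.mp h1 with h2 | h2
    · left
      rw [eq_bot_iff]
      intro x hx
      have h5 : P.j x ∈ N.map P.j := ⟨x, hx, rfl⟩
      rw [h2, Submodule.mem_bot] at h5
      rw [Submodule.mem_bot]
      exact P.inj (by rw [h5, map_zero])
    · right
      rw [eq_top_iff]
      intro x _
      have h4 : P.j x ∈ N.map P.j := by
        rw [h2, ← hP]; exact ⟨x, rfl⟩
      obtain ⟨y, hy, hxy⟩ := h4
      rw [← P.inj hxy]; exact hy
  · intro g
    refine ⟨1, ?_⟩
    rw [pow_one]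
    apply Matrix.toLin'.injective
    ext x : 2
    apply P.inj
    simp only [LinearMap.comp_apply, Matrix.toLin'_apply, map_zero, LinearMap.zero_apply]
    rw [P.aeval]
    obtain ⟨a, ha⟩ : ∃ a : k, a • v = P.j (LinearMap.single k (fun _ => k) x 1) := by
      rw [← Submodule.mem_span_singleton, ← hP]
      exact ⟨_, rfl⟩
    obtain ⟨c, hc⟩ := hv.2 g g.2
    have h5 := h g g.2
    rw [evg_bv, evg_rv_eig V W v i hi g c hc] at h5
    rw [← ha, mulVec_smul, aeval_eig (W g) v c hc, h5, zero_smul, smul_zero]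

/-- A common eigenvector of a normal subgroup. -/
theorem Eig.conj {W : Γ →* Matrix m m k} {Δ : Subgroup Γ} (hn : Δ.Normal) {v : m → k}
    (hv : Eig W Δ v) (γ : Γ) : Eig W Δ (W γ *ᵥ v) := by
  refine ⟨fun h0 => hv.1 ?_, fun g hg => ?_⟩
  · have : W γ⁻¹ *ᵥ (W γ *ᵥ v) = v := by
      rw [mulVec_mulVec, ← map_mul, inv_mul_cancel, map_one, one_mulVec]
    rw [← this, h0, mulVec_zero]
  · obtain ⟨c, hc⟩ := hv.2 (γ⁻¹ * g * γ) (by
      have := hn.conj_mem g hg γ⁻¹
      rwa [inv_inv] at this)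
    refine ⟨c, ?_⟩
    calc W g *ᵥ (W γ *ᵥ v) = W γ *ᵥ (W (γ⁻¹ * g * γ) *ᵥ v) := by
          rw [mulVec_mulVec, mulVec_mulVec, ← map_mul, ← map_mul]
          congr 2
          group
      _ = c • (W γ *ᵥ v) := by rw [hc, mulVec_smul]

theorem exists_eig (W : Γ →* Matrix (Fin 2) (Fin 2) k) (Δ : Subgroup Γ)
    (h : ¬ IsIrreducible (W.comp Δ.subtype)) : ∃ v, Eig W Δ v := by
  unfold Pool.Agent.V8H88.GO.IsIrreducible at h
  push Not at h
  obtain ⟨M, hM, h0, h1⟩ := h ⟨0⟩
  have h2 : Module.finrank k M < 2 := by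
    have := Submodule.finrank_lt h1
    simpa using this
  have h3 : Module.finrank k M ≠ 0 := fun h => h0 (Submodule.finrank_eq_zero.mp h)
  have h4 : Module.finrank k M = 1 := by omega
  obtain ⟨v, hv, hv'⟩ := finrank_eq_one_iff'.mp h4
  refine ⟨v.1, fun h => hv (Subtype.ext h), fun g hg => ?_⟩
  obtain ⟨c, hc⟩ := hv' ⟨W g *ᵥ v.1, hM ⟨g, hg⟩ v.1 v.2⟩
  exact ⟨c, (congrArg Subtype.val hc).symm⟩

theorem exists_second (W : Γ →* Matrix (Fin 2) (Fin 2) k) (hW : IsIrreducible W)
    (v : Fin 2 → k) (hv : v ≠ 0) : ∃ γ, LinearIndependent k ![v, W γ *ᵥ v] := by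
  by_contra hcon
  push Not at hcon
  have hst : ∀ γ, W γ *ᵥ v ∈ Submodule.span k {v} := by
    intro γ
    have h1 := hcon γ
    rw [LinearIndependent.pair_iff' hv] at h1
    push Not at h1
    obtain ⟨a, ha⟩ := h1
    exact Submodule.mem_span_singleton.mpr ⟨a, ha⟩
  rcases hW.2 (Submodule.span k {v}) (by
    intro g x hx
    obtain ⟨a, rfl⟩ := Submodule.mem_span_singleton.mp hx
    rw [mulVec_smul]
    exact Submodule.smul_mem _ _ (hst g)) with h | h
  · exact hv (Submodule.span_singleton_eq_bot.mp h)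
  · have h1 := finrank_span_singleton (K := k) hv
    rw [h, finrank_top] at h1
    simp at h1

theorem root_of_pair (A : Matrix (Fin 2) (Fin 2) k) (v w : Fin 2 → k)
    (hvw : LinearIndependent k ![v, w]) (c d e : k) (hv : A *ᵥ v = c • v) (hw : A *ᵥ w = d • w)
    (he : A.charpoly.IsRoot e) : e = c ∨ e = d := by
  rw [isRoot_charpoly_iff] at he
  obtain ⟨x, hx, hxe⟩ := he
  have hspan : Submodule.span k (Set.range ![v, w]) = ⊤ :=
    hvw.span_eq_top_of_card_eq_finrank (by simp)
  have hxm : x ∈ Submodule.span k (Set.range ![v, w]) := by rw [hspan]; trivial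
  have hr : Set.range ![v, w] = {v, w} := by
    simp [Matrix.range_cons, Matrix.range_empty, Set.pair_comm]
  rw [hr, Submodule.mem_span_pair] at hxm
  obtain ⟨a, b, rfl⟩ := hxm
  rw [mulVec_add, mulVec_smul, mulVec_smul, hv, hw] at hxe
  have h1 : (a * (c - e)) • v + (b * (d - e)) • w = 0 := by
    have : (a * (c - e)) • v + (b * (d - e)) • w = (a • c • v + b • d • w) - e • (a • v + b • w) := by
      simp only [smul_smul, smul_add, mul_sub, sub_smul, mul_comm e]
      abel
    rw [this, hxe, sub_self]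
  obtain ⟨h2, h3⟩ := LinearIndependent.pair_iff.mp hvw _ _ h1
  by_contra hcon
  push Not at hcon
  have ha : a = 0 := (mul_eq_zero.mp h2).resolve_right (sub_ne_zero.mpr hcon.1.symm)
  have hb : b = 0 := (mul_eq_zero.mp h3).resolve_right (sub_ne_zero.mpr hcon.2.symm)
  apply hx
  rw [ha, hb, zero_smul, zero_smul, add_zero]

/-- the determinant of the difference of the Kronecker products -/
noncomputable def kd (V : Γ →* Matrix n n k) (W : Γ →* Matrix m m k) : RB V W :=
  (kroneckerMap (· * ·) (gV V W) (1 : Matrix m m (RB V W)) -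
      kroneckerMap (· * ·) (1 : Matrix n n (RB V W)) (gW V W)).det

theorem evg_kd (V : Γ →* Matrix n n k) (W : Γ →* Matrix m m k) (g : Γ) :
    evg V W g (kd V W) = (kroneckerMap (· * ·) (V g) (1 : Matrix m m k) -
      kroneckerMap (· * ·) (1 : Matrix n n k) (W g)).det := by
  rw [kd, AlgHom.map_det, AlgHom.mapMatrix_apply]
  congr 1
  ext ⟨i, i'⟩ ⟨j, j'⟩
  simp only [map_apply, Matrix.sub_apply, kroneckerMap_apply, map_sub, map_mul]
  congr 1
  · congr 1
    rw [Matrix.one_apply, Matrix.one_apply]; split_ifs <;> simp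
  · congr 1
    rw [Matrix.one_apply, Matrix.one_apply]; split_ifs <;> simp

section top

variable [TopologicalSpace Γ] [TopologicalSpace k] [IsTopologicalRing k] [T2Space k]
  [IsTopologicalGroup Γ] [CompactSpace Γ] [MeasurableSpace Γ] [BorelSpace Γ]

variable (V : Γ →* Matrix n n k) (W : Γ →* Matrix (Fin 2) (Fin 2) k)
    (hV : Continuous V) (hW : Continuous W) (hirr : IsIrreducible W)
    (hbasis : ∀ W ∈ 𝓝 (1 : Γ), ∃ U : Subgroup Γ, U.Normal ∧ IsOpen (U : Set Γ) ∧ (U : Set Γ) ⊆ W)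
    (μ : Measure Γ) [μ.IsHaarMeasure] [μ.InnerRegularCompactLTTop]
    (Δ : Subgroup Γ) (hΔ : IsOpen (Δ : Set Γ)) (hconn : ConnectedOn V W Δ)
    (D : Set Γ) (hD : D ⊆ Δ) (hμ : μ (closure D) ≠ 0)

include hV hW hbasis hΔ hconn hD hμ

theorem det_on (h : ∀ g ∈ D, ∃ c, (V g).charpoly.IsRoot c ∧ (W g).charpoly.IsRoot c) :
    ∀ g ∈ Δ, (kroneckerMap (· * ·) (V g) (1 : Matrix (Fin 2) (Fin 2) k) -
      kroneckerMap (· * ·) (1 : Matrix n n k) (W g)).det = 0 := by
  intro g hg
  rw [← evg_kd]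
  refine vanish' V W hV hW hbasis μ Δ hΔ hconn D hD hμ (kd V W) ?_ g hg
  intro g hg
  obtain ⟨c, h1, h2⟩ := h g hg
  rw [evg_kd]
  exact det_kron_eq_zero _ _ c h1 h2

include hirr

/-- **Rank two, connected monodromy.** -/
theorem rank_two_top [IsAlgClosed k] [CharZero k] (htop : Δ = ⊤)
    (h : ∀ g ∈ D, ∃ c, (V g).charpoly.IsRoot c ∧ (W g).charpoly.IsRoot c) :
    ∃ (l : Type) (x : Fintype l) (y : DecidableEq l) (U : Γ →* Matrix l l k),
      IsTensorPower V l x y U ∧ IsSubquotient W U := by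
  have h1 := det_on V W hV hW hbasis μ Δ hΔ hconn D hD hμ h
  exact two_dim V W hirr fun g => h1 g (by rw [htop]; trivial)

/-- **Rank two.** -/
theorem rank_two [IsAlgClosed k] [CharZero k] (hn : Δ.Normal) [Fintype (Γ ⧸ Δ)]
    [DecidableEq (Γ ⧸ Δ)]
    (h : ∀ g ∈ D, ∃ c, (V g).charpoly.IsRoot c ∧ (W g).charpoly.IsRoot c) : Concl V W Δ := by
  by_cases hΔi : IsIrreducible (W.comp Δ.subtype)
  · -- irreducible restriction
    have h1 := det_on V W hV hW hbasis μ Δ hΔ hconn D hD hμ h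
    obtain ⟨l, x, y, U, hU, hs⟩ := two_dim (V.comp Δ.subtype) (W.comp Δ.subtype) hΔi
      (fun g => h1 g g.2)
    obtain ⟨U', hU', rfl⟩ := lift_tensorPower V Δ hU
    let P : Piece W Δ 2 :=
      { rep := W.comp Δ.subtype
        j := LinearMap.id
        inj := fun _ _ h => h
        equiv := fun _ _ => rfl }
    exact ⟨l, x, y, U', hU', reciprocity U' Δ hirr (by norm_num) P hs⟩
  · obtain ⟨v, hv⟩ := exists_eig W Δ hΔi
    obtain ⟨γ, hγ⟩ := exists_second W hirr v hv.1
    have hw := hv.conj hn γ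
    set w := W γ *ᵥ v with hwdef
    obtain ⟨i, hi⟩ := Function.ne_iff.mp hv.1
    obtain ⟨j, hj⟩ := Function.ne_iff.mp hw.1
    rw [Pi.zero_apply] at hi hj
    set D1 : Set Γ := {g | g ∈ D ∧ evg V W g (bv V W v i) = 0} with hD1
    set D2 : Set Γ := {g | g ∈ D ∧ evg V W g (bv V W w j) = 0} with hD2
    have hDD : D ⊆ D1 ∪ D2 := by
      intro g hg
      obtain ⟨e, he, he'⟩ := h g hg
      obtain ⟨c, hc⟩ := hv.2 g (hD hg)
      obtain ⟨d, hd⟩ := hw.2 g (hD hg)
      rcases root_of_pair (W g) v w hγ c d e hc hd he' with rfl | rfl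
      · left
        refine ⟨hg, ?_⟩
        rw [evg_bv, evg_rv_eig V W v i hi g e hc]
        exact he
      · right
        refine ⟨hg, ?_⟩
        rw [evg_bv, evg_rv_eig V W w j hj g e hd]
        exact he
    have hμ12 : μ (closure D1) ≠ 0 ∨ μ (closure D2) ≠ 0 := by
      by_contra hcon
      push Not at hcon
      apply hμ
      have h1 : closure D ⊆ closure D1 ∪ closure D2 := by
        rw [← closure_union]; exact closure_mono hDD
      exact measure_mono_null h1 (measure_union_null hcon.1 hcon.2)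
    rcases hμ12 with h1 | h1
    · exact piece_of_eig V W hirr Δ v hv i hi (vanish' V W hV hW hbasis μ Δ hΔ hconn D1
        (fun g hg => hD hg.1) h1 _ (fun g hg => hg.2))
    · exact piece_of_eig V W hirr Δ w hw j hj (vanish' V W hV hW hbasis μ Δ hΔ hconn D2
        (fun g hg => hD hg.1) h1 _ (fun g hg => hg.2))

end top

end Pool.Agent.V8H18.MD
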