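import Pool.Agent.V8H88.GO.Any

/-!
# Restriction to subgroups
-/

set_option autoImplicit false

namespace Pool.Agent.V8H18.MD

open Matrix Polynomial Pool.Agent.V8H88.GO

variable {k Γ : Type} [Field k] [Group Γ]
variable {n m : Type} [Fintype n] [DecidableEq n] [Fintype m] [DecidableEq m]

/-- Tensor powers of restrictions are restrictions. -/
theorem lift_tensorPower (V : Γ →* Matrix n n k) (Δ : Subgroup Γ) {l : Type} {a : Fintype l}
    {b : DecidableEq l} {U : Δ →* Matrix l l k} (hU : IsTensorPower (V.comp Δ.subtype) l a b U) :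
    ∃ U' : Γ →* Matrix l l k, IsTensorPower V l a b U' ∧ U'.comp Δ.subtype = U := by
  induction hU with
  | one => exact ⟨trivialRep k Γ, IsTensorPower.one, rfl⟩
  | mul _ ih =>
    obtain ⟨U', h1, rfl⟩ := ih
    exact ⟨tensor V U', IsTensorPower.mul h1, rfl⟩
  | mulDual _ ih =>
    obtain ⟨U', h1, rfl⟩ := ih
    exact ⟨tensor (dual V) U', IsTensorPower.mulDual h1, rfl⟩

/-- A representation of `Δ` on a subspace of the space of `W`. -/
structure Piece (W : Γ →* Matrix m m k) (Δ : Subgroup Γ) (d : ℕ) where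
  rep : Δ →* Matrix (Fin d) (Fin d) k
  j : (Fin d → k) →ₗ[k] (m → k)
  inj : Function.Injective j
  equiv : ∀ (g : Δ) (x : Fin d → k), j (rep g *ᵥ x) = W g *ᵥ j x

theorem Piece.aeval {W : Γ →* Matrix m m k} {Δ : Subgroup Γ} {d : ℕ} (P : Piece W Δ d) (g : Δ)
    (p : k[X]) (x : Fin d → k) :
    P.j (Polynomial.aeval (P.rep g) p *ᵥ x) = Polynomial.aeval (W g) p *ᵥ P.j x := by
  induction p using Polynomial.induction_on' with
  | add p q hp hq => simp only [map_add, add_mulVec, hp, hq]
  | monomial r a =>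
    rw [aeval_monomial, aeval_monomial, Algebra.algebraMap_eq_smul_one,
      Algebra.algebraMap_eq_smul_one, smul_mul_assoc, smul_mul_assoc, one_mul, one_mul,
      smul_mulVec, smul_mulVec, map_smul]
    congr 1
    induction r generalizing x with
    | zero => rw [pow_zero, pow_zero, one_mulVec, one_mulVec]
    | succ r ih => rw [pow_succ, pow_succ, ← mulVec_mulVec, ih, P.equiv, mulVec_mulVec]

theorem Piece.nilp {W : Γ →* Matrix m m k} {Δ : Subgroup Γ} {d : ℕ} (P : Piece W Δ d) (g : Δ)
    (p : k[X]) (h : IsNilpotent (Polynomial.aeval (W g) p)) :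
    IsNilpotent (Polynomial.aeval (P.rep g) p) := by
  obtain ⟨N, hN⟩ := h
  refine ⟨N, ?_⟩
  rw [← map_pow] at hN ⊢
  apply Matrix.toLin'.injective
  ext x : 2
  apply P.inj
  simp only [LinearMap.comp_apply, Matrix.toLin'_apply, map_zero, LinearMap.zero_apply]
  rw [P.aeval, hN, zero_mulVec]

/-- The piece given by an invariant subspace. -/
theorem exists_piece (W : Γ →* Matrix m m k) (Δ : Subgroup Γ) (M : Submodule k (m → k))
    (hM : ∀ g ∈ Δ, ∀ x ∈ M, W g *ᵥ x ∈ M) :
    ∃ (d : ℕ) (P : Piece W Δ d), LinearMap.range P.j = M := by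
  let e := (Module.finBasis k M).equivFun
  let L : Δ → (M →ₗ[k] M) := fun g =>
    { toFun := fun x => ⟨W g *ᵥ x.1, hM g g.2 x.1 x.2⟩
      map_add' := fun x y => Subtype.ext (mulVec_add _ _ _)
      map_smul' := fun c x => Subtype.ext (mulVec_smul _ _ _) }
  let R : Δ → Matrix (Fin (Module.finrank k M)) (Fin (Module.finrank k M)) k := fun g =>
    LinearMap.toMatrix' ((e : M →ₗ[k] _) ∘ₗ L g ∘ₗ (e.symm : _ →ₗ[k] M))
  have hR : ∀ g x, R g *ᵥ x = e (L g (e.symm x)) := by
    intro g x
    exact LinearMap.toMatrix'_mulVec _ _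
  have hinj : ∀ A B : Matrix (Fin (Module.finrank k M)) (Fin (Module.finrank k M)) k,
      (∀ x, A *ᵥ x = B *ᵥ x) → A = B := by
    intro A B h
    apply Matrix.toLin'.injective
    ext x : 2
    simp only [LinearMap.comp_apply, Matrix.toLin'_apply, h]
  refine ⟨Module.finrank k M,
    { rep :=
        { toFun := R
          map_one' := by
            apply hinj
            intro x
            rw [hR, one_mulVec]
            have : L 1 (e.symm x) = e.symm x := Subtype.ext (by
              change W ((1 : Δ) : Γ) *ᵥ (e.symm x).1 = _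
              rw [Subgroup.coe_one, map_one, one_mulVec])
            rw [this, LinearEquiv.apply_symm_apply]
          map_mul' := by
            intro g h
            apply hinj
            intro x
            rw [← mulVec_mulVec, hR, hR, hR, LinearEquiv.symm_apply_apply]
            congr 1
            apply Subtype.ext
            change W ((g * h : Δ) : Γ) *ᵥ (e.symm x).1 = W g *ᵥ (W h *ᵥ (e.symm x).1)
            rw [Subgroup.coe_mul, map_mul, mulVec_mulVec] }
      j := M.subtype ∘ₗ (e.symm : _ →ₗ[k] M)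
      inj := by
        intro x y h
        exact e.symm.injective (Subtype.ext h)
      equiv := by
        intro g x
        change (e.symm (R g *ᵥ x)).1 = W g *ᵥ (e.symm x).1
        rw [hR, LinearEquiv.symm_apply_apply]
        rfl }, ?_⟩
  apply le_antisymm
  · rintro _ ⟨x, rfl⟩
    exact (e.symm x).2
  · intro x hx
    refine ⟨e ⟨x, hx⟩, ?_⟩
    change (e.symm (e ⟨x, hx⟩)).1 = x
    rw [LinearEquiv.symm_apply_apply]

/-- A minimal nonzero invariant subspace. -/
theorem exists_irreducible_piece [Nonempty m] (W : Γ →* Matrix m m k) (Δ : Subgroup Γ) :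
    ∃ (d : ℕ) (P : Piece W Δ d), IsIrreducible P.rep := by
  have hwf : WellFounded ((· < ·) : Submodule k (m → k) → Submodule k (m → k) → Prop) :=
    wellFounded_lt
  obtain ⟨M, ⟨hM0, hM⟩, hmin⟩ := hwf.has_min
    {M : Submodule k (m → k) | M ≠ ⊥ ∧ ∀ g ∈ Δ, ∀ x ∈ M, W g *ᵥ x ∈ M}
    ⟨⊤, top_ne_bot, fun _ _ _ _ => trivial⟩
  obtain ⟨d, P, hP⟩ := exists_piece W Δ M hM
  refine ⟨d, P, ?_, ?_⟩
  · by_contra hne
    rw [not_nonempty_iff] at hne
    apply hM0
    rw [← hP, LinearMap.range_eq_bot]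
    ext x
    exact hne.elim x
  · intro N hN
    have h1 : N.map P.j ≤ M := by
      rw [← hP]; exact LinearMap.map_le_range
    by_cases h0 : N = ⊥
    · exact Or.inl h0
    · right
      have h2 : N.map P.j ∈ {M : Submodule k (m → k) | M ≠ ⊥ ∧ ∀ g ∈ Δ, ∀ x ∈ M, W g *ᵥ x ∈ M} := by
        refine ⟨fun h => h0 ?_, ?_⟩
        · rw [eq_bot_iff]
          intro x hx
          have h5 : P.j x ∈ N.map P.j := ⟨x, hx, rfl⟩
          rw [h, Submodule.mem_bot] at h5
          rw [Submodule.mem_bot]
          exact P.inj (by rw [h5, map_zero])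
        · rintro g hg _ ⟨x, hx, rfl⟩
          exact ⟨P.rep ⟨g, hg⟩ *ᵥ x, hN ⟨g, hg⟩ x hx, P.equiv ⟨g, hg⟩ x⟩
      have h3 : N.map P.j = M := by
        by_contra hne
        exact hmin _ h2 (lt_of_le_of_ne h1 hne)
      rw [eq_top_iff]
      intro x _
      have h4 : P.j x ∈ N.map P.j := by
        rw [h3, ← hP]; exact ⟨x, rfl⟩
      obtain ⟨y, hy, hxy⟩ := h4
      rw [← P.inj hxy]; exact hy

end Pool.Agent.V8H18.MD
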